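import Pool.Agent.X39.Near.MasterI
import Pool.Agent.Y776.AxJ.Nome

/-!
# The modular Schanuel conjecture with derivatives along every analytic curve, at ALL algebraic parameters close to any number outside a set of dimension zero

Let `τ_1, …, τ_p` be ANY analytic functions on a connected open set `U` with values in the upper half-plane, such that no
nontrivial combination of them with integral coefficients is constant and `j(τ_i)` and `j(τ_k)` are algebraically
independent over `ℂ` for `i ≠ k` (so that the points `τ_i(z)` are in general not related by `GL_2(ℚ)`, and the special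
closure of the point `(τ_i(z))` is in general `ℍ^p`). The modular Schanuel conjecture with derivatives predicts in general
transcendence degree at least `3 p` for the numbers `τ_i, j(τ_i), j'(τ_i), j''(τ_i)`, and Bertolin's conjecture at least
`4 p` with the numbers `exp(2 π i τ_i)`. There are `4 p` fixed functions among the `5 p` functions `τ_i(z)`, `j(τ_i(z))`,
`j'(τ_i(z))`, `j''(τ_i(z))`, `exp(2 π i τ_i(z))` (at least `3 p` of them among the first four types) such that outside ONE
set of complex numbers `x` of Hausdorff dimension `0`, for all number fields `F ⊂ ℂ`, all `ω > 0`, `d` and `A` there are `B`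
and `T₁` such that for all `T ≥ T₁` and ALL `z ∈ F` of height at most `T` with `|z - x| ≤ T ^ (-ω)` their values at `z`
satisfy no relation of degree at most `d` with coefficients which are polynomials of degree at most `d` in the
`u_k(z) / w(z)` and in given complex numbers `ξ_i` (for instance `π`), with coefficients in `F` of height at most `T ^ A`,
not even up to `T ^ (-B)`. In particular this holds at the convergents of all irrational real numbers in `U` outside this
set, from some point on.
-/

set_option autoImplicit false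

open MeasureTheory NumberField
open Pool.Agent

namespace Pool.Agent.Results.MP_5e64e7_nt.ApproximationsOfAllNumbers

open Pool.Agent.X39.Near (Size Dependent)

/-- The lattice `ℤ + ℤ τ`. -/
noncomputable def lattice (τ : ℂ) (h : 0 < τ.im) : PeriodPair where
  ω₁ := 1
  ω₂ := τ
  indep := (Y685.LL ⟨τ, h⟩).indep

/-- The modular invariant `j = 1728 g₂³ / (g₂³ - 27 g₃²)` on the upper half-plane. -/
noncomputable def j (τ : ℂ) : ℂ :=
  if h : 0 < τ.im then 1728 * (lattice τ h).g₂ ^ 3 / ((lattice τ h).g₂ ^ 3 - 27 * (lattice τ h).g₃ ^ 2) else 0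

/-- The functions `τ_i(z)`, `j(τ_i(z))`, `j'(τ_i(z))`, `j''(τ_i(z))` (complex derivatives of `j`) and
`exp(2 π i τ_i(z))`. -/
noncomputable def value {p : ℕ} (τ : Fin p → ℂ → ℂ) (v : Fin p × Fin 5) (z : ℂ) : ℂ :=
  ![τ v.1 z, j (τ v.1 z), deriv j (τ v.1 z), deriv (deriv j) (τ v.1 z),
    Complex.exp (2 * Real.pi * Complex.I * τ v.1 z)] v.2

/-- the chosen functions -/
noncomputable def chosen {p m : ℕ} (τ : Fin p → ℂ → ℂ) (e : Fin m → Fin p × Fin 5) (k : Fin m) (z : ℂ) : ℂ :=
  value τ (e k) z

/-- An analytic curve in `ℍ^p`. -/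
structure Curve (U : Set ℂ) {p : ℕ} (τ : Fin p → ℂ → ℂ) : Prop where
  pos : 0 < p
  isOpen : IsOpen U
  isPreconnected : IsPreconnected U
  nonempty : U.Nonempty
  analytic : ∀ i, AnalyticOnNhd ℂ (τ i) U
  im_pos : ∀ i, ∀ z ∈ U, 0 < (τ i z).im
  /-- no nontrivial combination with integral coefficients is constant -/
  linear : ∀ m : Fin p → ℤ, m ≠ 0 → ∀ c : ℂ, ∃ z ∈ U, ∑ i, (m i : ℂ) * τ i z ≠ c
  /-- two of the functions `j(τ_i)` are algebraically independent over `ℂ` -/
  independent : ∀ i k, i ≠ k → ∀ P : MvPolynomial (Fin 2) ℂ, P ≠ 0 →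
    ∃ z ∈ U, MvPolynomial.eval ![j (τ i z), j (τ k z)] P ≠ 0

theorem j_eq {τ : ℂ} (h : 0 < τ.im) : j τ = Y776.jf τ := by
  have h1 : Y685.LC τ = lattice τ h := by
    rw [Y685.LC, UpperHalfPlane.ofComplex_apply_of_im_pos h]
    rfl
  rw [j, dif_pos h, Y776.jf, h1]

theorem j_ev {τ : ℂ} (h : 0 < τ.im) : j =ᶠ[nhds τ] Y776.jf := by
  filter_upwards [Y776.AxJ.isOpen_H.mem_nhds h] with σ hσ
  exact j_eq hσ

theorem dj_eq {τ : ℂ} (h : 0 < τ.im) : deriv j τ = deriv Y776.jf τ := (j_ev h).deriv_eq

theorem dj_ev {τ : ℂ} (h : 0 < τ.im) : deriv j =ᶠ[nhds τ] deriv Y776.jf := by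
  filter_upwards [Y776.AxJ.isOpen_H.mem_nhds h] with σ hσ
  exact dj_eq hσ

theorem ddj_eq {τ : ℂ} (h : 0 < τ.im) : deriv (deriv j) τ = deriv (deriv Y776.jf) τ := (dj_ev h).deriv_eq

theorem fmj {U : Set ℂ} {p : ℕ} {τ : Fin p → ℂ → ℂ} (h : Curve U τ) :
    Y776.AxJ.Fmj U τ (fun i z => 2 * Real.pi * Complex.I * τ i z) where
  op := h.isOpen
  conn := h.isPreconnected
  ne := h.nonempty
  ta := h.analytic
  im := h.im_pos
  nc := by
    intro i c
    obtain ⟨z, hz, hne⟩ := h.linear (Pi.single i 1) (by
      intro h0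
      have := congrFun h0 i
      rw [Pi.single_eq_same] at this
      exact one_ne_zero this) c
    refine ⟨z, hz, fun h1 => hne ?_⟩
    rw [← h1, Finset.sum_eq_single i]
    · rw [Pi.single_eq_same, Int.cast_one, one_mul]
    · intro k _ hk
      rw [Pi.single_eq_of_ne hk, Int.cast_zero, zero_mul]
    · intro hcon
      exact absurd (Finset.mem_univ i) hcon
  ji := by
    intro i k hik P hP
    by_contra hne
    obtain ⟨z, hz, hz0⟩ := h.independent i k hik P hne
    apply hz0
    rw [← hP z hz]
    congr 2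
    funext m
    fin_cases m
    · exact j_eq (h.im_pos i z hz)
    · exact j_eq (h.im_pos k z hz)
  wa := fun i z hz => analyticAt_const.mul (h.analytic i z hz)
  wi := by
    intro m c hc
    by_contra hm
    have hpi : (2 * (Real.pi : ℂ) * Complex.I) ≠ 0 := Complex.two_pi_I_ne_zero
    obtain ⟨z, hz, hne⟩ := h.linear m hm (c / (2 * Real.pi * Complex.I))
    apply hne
    rw [eq_div_iff hpi, ← hc z hz, Finset.sum_mul]
    exact Finset.sum_congr rfl fun i _ => by ring

theorem value_eq {U : Set ℂ} {p : ℕ} {τ : Fin p → ℂ → ℂ} (h : Curve U τ) {z : ℂ} (hz : z ∈ U)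
    (o : Fin p × Fin 5) : Y776.AxJ.yn τ o z = value τ o z := by
  obtain ⟨i, m⟩ := o
  fin_cases m
  · rfl
  · exact (j_eq (h.im_pos i z hz)).symm
  · exact (dj_eq (h.im_pos i z hz)).symm
  · exact (ddj_eq (h.im_pos i z hz)).symm
  · rfl

/-- at most `p` of the chosen functions are exponentials -/
theorem card_chosen {p : ℕ} (e : Fin (4 * p) → Fin p × Fin 5) (he : Function.Injective e) :
    3 * p ≤ (Finset.univ.filter fun k => (e k).2 ≠ 4).card := by
  classical
  have h1 : (Finset.univ.filter fun k => (e k).2 = 4).card ≤ p := by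
    have h2 : (Finset.univ.filter fun k => (e k).2 = 4).card ≤ (Finset.univ : Finset (Fin p)).card := by
      refine Finset.card_le_card_of_injOn (fun k => (e k).1) (fun _ _ => Finset.mem_univ _) ?_
      intro a ha b hb hab
      rw [Finset.mem_coe, Finset.mem_filter] at ha hb
      exact he (Prod.ext hab (ha.2.trans hb.2.symm))
    simpa using h2
  have h3 := Finset.card_filter_add_card_filter_not (s := (Finset.univ : Finset (Fin (4 * p))))
    (p := fun k => (e k).2 = 4)
  rw [Finset.card_univ, Fintype.card_fin] at h3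
  have h4 : (Finset.univ.filter fun k => ¬ (e k).2 = 4).card = (Finset.univ.filter fun k => (e k).2 ≠ 4).card := rfl
  omega

/-- **Theorem.** For every curve `τ_1, …, τ_p` in `ℍ^p` one can choose `4 p` of the `5 p` functions (`3 p` of them are not
exponentials) such that for all polynomials `a_k`, `w`, `w` without zeros on `U`, and all complex numbers `ξ_1, …, ξ_g`
there is a set `E` of complex numbers of Hausdorff dimension `0` such that: (1) for all `x ∈ U` outside `E`, all
number fields `F` with an embedding `ι` in `ℂ`, all `d`, `A` and `ω > 0` there are `B`, `T₁` such that for all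
`T ≥ T₁` and all `z ∈ F`, quotients of integers with conjugates at most `T`, with `|ι z - x| ≤ T ^ (-ω)`, the
values of these functions at `z` are not dependent; (2) for all irrational real `x ∈ U` outside `E` and all `d`,
`A` there is `B` such that the values at the convergents of `x` are not dependent over `ℚ`, at the level of
the denominator, from some point on. -/
theorem result {p : ℕ} (U : Set ℂ) (τ : Fin p → ℂ → ℂ) (hC : Curve U τ) :
    ∃ e : Fin (4 * p) → Fin p × Fin 5, Function.Injective e ∧
      3 * p ≤ (Finset.univ.filter fun k => (e k).2 ≠ 4).card ∧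
      ∀ (m g : ℕ) (a : Fin m → Polynomial ℂ) (w : Polynomial ℂ), (∀ z ∈ U, w.eval z ≠ 0) → ∀ ξ : Fin g → ℂ,
      ∃ E : Set ℂ, dimH E = 0 ∧
        (∀ x ∈ U, x ∉ E → ∀ (F : Type) [Field F] [NumberField F] (ι : F →+* ℂ)
          (d A : ℕ) (ω : ℝ), 0 < ω → ∃ B T₁ : ℝ, ∀ T : ℝ, T₁ ≤ T → ∀ z : F, Size F T z →
            ‖ι z - x‖ ≤ T ^ (-ω) → ¬ Dependent (chosen τ e) a w ξ F ι d A B T z) ∧
        ∀ x : ℝ, Irrational x → (x : ℂ) ∈ U → (x : ℂ) ∉ E → ∀ d A : ℕ, ∃ (B : ℝ) (n₀ : ℕ), ∀ k : ℕ,
          n₀ ≤ k → ¬ Dependent (chosen τ e) a w ξ ℚ (algebraMap ℚ ℂ) d A B (x.convergent k).den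
            (x.convergent k) := by
  classical
  obtain ⟨e, he, hloc⟩ := Y776.AxJ.exists_loc_nome (fmj hC) hC.pos
  have hval : ∀ k z, z ∈ U → Y776.AxJ.yn τ (e k) z = chosen τ e k z := fun k z hz => value_eq hC hz (e k)
  refine ⟨e, he, card_chosen e he, fun m g a w hw ξ => ?_⟩
  refine Pool.Agent.X39.Near.master U hC.isOpen (chosen τ e) (fun k z hz => ?_) (fun t ht P hP => ?_) a w hw ξ
  · refine (Y776.AxJ.yn_an (fmj hC) (e k) z hz).congr ?_
    filter_upwards [hC.isOpen.mem_nhds hz] with y hy
    exact hval k y hy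
  · apply hloc t ht P
    filter_upwards [hP, hC.isOpen.mem_nhds ht] with z hz hzU
    rw [← hz]
    congr 2
    funext o
    rcases o with _ | k
    · rfl
    · exact hval k z hzU

end Pool.Agent.Results.MP_5e64e7_nt.ApproximationsOfAllNumbers
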