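import Pool.Agent.X255.RH.Main
import Pool.Agent.Y771.KF.MSP

/-!
# Values of `e^(-2πi z)`, `j`, `j'`, `j''` at almost all algebraic points, ordered by height, jointly for all conjugates

If `z_1, …, z_r` are the roots in the upper half-plane of an integral polynomial of degree `g`, the modular Schanuel
conjecture with derivatives and special points (and Bertolin's conjecture for the numbers `e^(-2πi z)`) predicts, except
for special configurations, that the numbers `e^(-2πi z_i)`, `j(z_i)`, `j'(z_i)`, `j''(z_i)` are algebraically independent.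
We prove that for 100% of the integral polynomials of degree `g`, ordered by the maximum `T` of the absolute values of
the coefficients, these numbers satisfy no relation whose degree, and the degree of whose coefficient field, is at most
`ω(T)`, and whose coefficients are of size at most `T ^ ω(T)`, where `ω(T) → ∞`; the coefficients may also contain
arbitrary fixed complex numbers `ξ_b` (for instance powers of `π`). More generally this holds for the values at all
points `s_i z_l`, where the real numbers `s_1, …, s_p > 0` are linearly independent over `ℚ`.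

Proof: `Pool.Agent.X255.NP` (the norm to `ℚ` of a relation over the field generated by all roots, a nonstandard version of
the Bombieri-Pila method), the independence of the functions `z`, `e^(-2πi z)`, `j`, `j'`, `j''` (Mahler,
`Pool.Agent.TH21.MS`), and `Pool.Agent.X255.RH` (independence of functions of different variables; almost no integral
polynomial has close roots, or nonreal roots close to the real line).
-/

set_option autoImplicit false

open Polynomial Filter NumberField
open scoped Classical

namespace Pool.Agent.Results.MP_5e64e7_nt.ConjugatePoints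

/-- the normalised Eisenstein series of weight `4` -/
noncomputable def E4 (τ : ℂ) : ℂ :=
  1 + 240 * ∑' m : ℕ, ((ArithmeticFunction.sigma 3 (m + 1) : ℕ) : ℂ) *
    Complex.exp (2 * (Real.pi : ℂ) * Complex.I * τ) ^ (m + 1)

/-- the normalised Eisenstein series of weight `6` -/
noncomputable def E6 (τ : ℂ) : ℂ :=
  1 - 504 * ∑' m : ℕ, ((ArithmeticFunction.sigma 5 (m + 1) : ℕ) : ℂ) *
    Complex.exp (2 * (Real.pi : ℂ) * Complex.I * τ) ^ (m + 1)

/-- the modular invariant `j = q⁻¹ + 744 + 196884 q + ⋯` -/
noncomputable def j (τ : ℂ) : ℂ := 1728 * E4 τ ^ 3 / (E4 τ ^ 3 - E6 τ ^ 2)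

/-- `exp (-2πi z), j (z), j' (z), j'' (z)` (complex derivatives) -/
noncomputable def jet (z : ℂ) : Fin 4 → ℂ :=
  ![Complex.exp (-(2 * (Real.pi : ℂ) * Complex.I * z)), j z, deriv j z, deriv (deriv j) z]

/-- the upper half-plane -/
def H : Set ℂ := {z | 0 < z.im}

/-- the polynomial `a_g X ^ g + … + a_0` -/
noncomputable def poly {g : ℕ} (a : Fin (g + 1) → ℤ) : ℂ[X] := ∑ i, C (a i : ℂ) * X ^ (i : ℕ)

/-- the roots of the polynomial in the set `V` -/
noncomputable def rootsIn (V : Set ℂ) {g : ℕ} (a : Fin (g + 1) → ℤ) : Finset ℂ :=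
  (poly a).roots.toFinset.filter fun z => z ∈ V

/-- The numbers `x q`, `q ∈ Q`, satisfy no relation of degree at most `k` in each of them with coefficients
`∑ ξ b * c b`, `b < k`, where the `c b` are integers of a number field of degree at most `k`, all of whose conjugates
are of absolute value at most `T ^ k`, except the relations all of whose coefficients vanish. -/
def Unrelated {Q : Type} [Fintype Q] [DecidableEq Q] (ξ : ℕ → ℂ) (k : ℕ) (T : ℝ) (x : Q → ℂ) : Prop :=
  ∀ (F : Type) [Field F] [NumberField F], Module.finrank ℚ F ≤ k → ∀ (io : F →+* ℂ)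
    (c : (Q → Fin (k + 1)) → Fin k → 𝓞 F), (∀ l b (φ : F →+* ℂ), ‖φ (c l b : F)‖ ≤ T ^ k) →
    ∑ l, (∑ b : Fin k, ξ b * io (c l b : F)) * ∏ q, x q ^ (l q : ℕ) = 0 → ∀ l, ∑ b : Fin k, ξ b * io (c l b : F) = 0

/-- the `a` with `|a_i| ≤ T` -/
noncomputable def box (g T : ℕ) : Finset (Fin (g + 1) → ℤ) := Fintype.piFinset fun _ => Finset.Icc (-(T : ℤ)) T

/-- the values of the `jet` at the points `s_i z`, `z` all roots of `a` in the upper half-plane, are unrelated up to
complexity `k` -/
def Free {g p : ℕ} (s : Fin p → ℝ) (ξ : ℕ → ℂ) (k : ℕ) (T : ℝ) (a : Fin (g + 1) → ℤ) : Prop :=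
  Unrelated ξ k T fun q : {z // z ∈ rootsIn H a} × (Fin p × Fin 4) => jet ((s q.2.1 : ℂ) * q.1) q.2.2

/-- `a` is of degree `g`, with simple roots, and `Free` -/
def Good {g p : ℕ} (s : Fin p → ℝ) (ξ : ℕ → ℂ) (k : ℕ) (T : ℝ) (a : Fin (g + 1) → ℤ) : Prop :=
  a (Fin.last g) ≠ 0 ∧ (poly a).Separable ∧ Free s ξ k T a

/-- `a` is of degree `g`, its roots are simple, of absolute value at most `R`, at distance at least `η` from each other,
and the roots in `V` are at distance at least `η` from the complement of `V` -/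
def Position (V : Set ℂ) (R η : ℝ) {g : ℕ} (a : Fin (g + 1) → ℤ) : Prop :=
  a (Fin.last g) ≠ 0 ∧ (poly a).Separable ∧ ∀ z, (poly a).eval z = 0 → ‖z‖ ≤ R ∧
    (∀ w, (poly a).eval w = 0 → w ≠ z → η ≤ ‖z - w‖) ∧ (z ∈ V → Metric.ball z η ⊆ V)

/-- **Theorem.** Let `g ≥ 1`, let the `s_i > 0` be linearly independent over `ℚ` (for instance `p = 1`, `s = 1`), and let
`ξ` be a sequence of complex numbers.
(1) There is a monotone `ω`, `ω(T) → ∞`, such that the proportion of the polynomials with `|a_i| ≤ T` which are not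
`Good` with `k = ω(T)` is at most `1 / ω(T)`.
(2) For fixed `k`, `R`, `η > 0` and `ε > 0`, all but `C T ^ (g + ε)` of the polynomials with `|a_i| ≤ T` whose roots
are in the compact position `Position H R η` are `Free` (there are about `(2 T) ^ (g + 1)` polynomials). -/
theorem result (g p : ℕ) (hg : 0 < g) (s : Fin p → ℝ) (hs0 : ∀ i, 0 < s i)
    (hs : ∀ c : Fin p → ℤ, ∑ i, (c i : ℝ) * s i = 0 → c = 0) (ξ : ℕ → ℂ) :
    (∃ ω : ℕ → ℕ, Tendsto ω atTop atTop ∧ Monotone ω ∧ ∀ T,
      ω T * ((box g T).filter fun a => ¬ Good s ξ (ω T) T a).card ≤ (box g T).card) ∧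
    ∀ (k : ℕ) (R η ε : ℝ), 0 < η → 0 < ε → ∃ C : ℝ, ∀ T : ℕ, 1 ≤ T →
      (((box g T).filter fun a => Position H R η a ∧ ¬ Free s ξ k T a).card : ℝ) ≤ C * (T : ℝ) ^ ((g : ℝ) + ε) := by
  have hop : IsOpen {z : ℂ | 0 < z.im} := isOpen_lt continuous_const Complex.continuous_im
  have hind := Pool.Agent.X255.RH.indep_of_aindepS (Pool.Agent.Y771.KF.fP_ind s hs0 hs)
  have h1 := Pool.Agent.X255.RH.main_all (g := g) hg Pool.Agent.Y771.KF.preconn_H hop (fun _ => {z : ℂ | 0 < z.im})
    (fun _ => Pool.Agent.X255.RH.tame_upper) (fun q => Pool.Agent.Y771.KF.fP_an s hs0 q) hind ξ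
  refine ⟨h1, fun k R η ε hη hε => ?_⟩
  have h2 := Pool.Agent.X255.RH.main_eps (g := g) hg Pool.Agent.Y771.KF.preconn_H hop
    (fun q => Pool.Agent.Y771.KF.fP_an s hs0 q) hind {z : ℂ | 0 < z.im} ξ k R η ε hη hε
  exact h2

end Pool.Agent.Results.MP_5e64e7_nt.ConjugatePoints
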