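import Pool.Agent.X255.RH.Loc
import Pool.Agent.X255.RH.Mea3
import Pool.Agent.Y776.AxJ.Alg

/-!
# Lower bounds for polynomials in the jets of `j` at almost all algebraic points of curves, jointly for all conjugates

Let `τ_1, …, τ_p` be analytic functions on a connected open set `V` with values in the upper half-plane, such that no
nontrivial combination of them with integral coefficients is constant and `j(τ_i)` and `j(τ_k)` are algebraically
independent over `ℂ` for `i ≠ k`, and let `p` of the `5 p` functions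

  `τ_i(z)`, `j(τ_i(z))`, `j'(τ_i(z))`, `j''(τ_i(z))`, `exp(2 π i τ_i(z))`

be algebraic, for instance the `τ_i`. For 100% of the integral polynomials of degree `g`, ordered by the
maximum `T` of the absolute values of the coefficients, we prove lower bounds `|P| ≥ T ^ (-B) |p|` for the polynomials
`P` of bounded degree in the values of the other `4 p` functions at ALL roots of the polynomial in `V` (at distance at
least `1 / (k + 1)` from the complement), where `p` is any coefficient of `P`. The coefficients are combinations of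
arbitrary complex numbers with integral coefficients of size at most `T ^ k`, and `B` depends only on `k` and the
functions. That there are no exact relations is proved in our hand-in `MP_ede373_nt.ConjugateCurvePoints`.

Proof: `Pool.Agent.Y890.MV` (a nonstandard version of the Bombieri-Pila method with lower bounds), the independence of the
functions (`Pool.Agent.Y776.AxJ`), and `Pool.Agent.X255.RH` (independence of functions of different variables; almost
no integral polynomial has close roots).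
-/

set_option autoImplicit false

open Polynomial Filter NumberField
open scoped Classical

namespace Pool.Agent.Results.MP_5e64e7_nt.LowerBoundsForJets

/-- The lattice `ℤ + ℤ τ`. -/
noncomputable def lattice (τ : ℂ) (h : 0 < τ.im) : PeriodPair where
  ω₁ := 1
  ω₂ := τ
  indep := (Pool.Agent.Y685.LL ⟨τ, h⟩).indep

/-- The modular invariant `j = 1728 g₂³ / (g₂³ - 27 g₃²)` on the upper half-plane. -/
noncomputable def j (τ : ℂ) : ℂ :=
  if h : 0 < τ.im then 1728 * (lattice τ h).g₂ ^ 3 / ((lattice τ h).g₂ ^ 3 - 27 * (lattice τ h).g₃ ^ 2) else 0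

/-- The names of the functions. -/
inductive Name (p : ℕ) : Type
  | tau : Fin p → Name p
  | j : Fin p → Name p
  | dj : Fin p → Name p
  | ddj : Fin p → Name p
  | nome : Fin p → Name p

/-- The values `τ_i(z)`, `j(τ_i(z))`, `j'(τ_i(z))`, `j''(τ_i(z))` (complex derivatives of `j`) and
`exp(2 π i τ_i(z))`. -/
noncomputable def value {p : ℕ} (τ : Fin p → ℂ → ℂ) (z : ℂ) : Name p → ℂ
  | Name.tau i => τ i z
  | Name.j i => j (τ i z)
  | Name.dj i => deriv j (τ i z)
  | Name.ddj i => deriv (deriv j) (τ i z)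
  | Name.nome i => Complex.exp (2 * (Real.pi : ℂ) * Complex.I * τ i z)

/-- `f` is algebraic over `ℂ(z)` on `U`. -/
def Algebraic (U : Set ℂ) (f : ℂ → ℂ) : Prop :=
  ∃ P : MvPolynomial (Fin 2) ℂ, P ≠ 0 ∧ ∀ z ∈ U, MvPolynomial.eval ![z, f z] P = 0

/-- An analytic curve in `ℍ^p`, and `p` of the `5 p` functions which are algebraic. -/
structure Curve (U : Set ℂ) {p : ℕ} (τ : Fin p → ℂ → ℂ) (S : Finset (Name p)) : Prop where
  pos : 0 < p
  isOpen : IsOpen U
  isPreconnected : IsPreconnected U
  nonempty : U.Nonempty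
  analytic : ∀ i, AnalyticOnNhd ℂ (τ i) U
  im_pos : ∀ i, ∀ z ∈ U, 0 < (τ i z).im
  /-- no nontrivial combination with integral coefficients is constant -/
  linear : ∀ m : Fin p → ℤ, m ≠ 0 → ∀ c : ℂ, ∃ z ∈ U, ∑ i, (m i : ℂ) * τ i z ≠ c
  /-- two of the functions `j(τ_i)` are algebraically independent over `ℂ` -/
  independent : ∀ i k, i ≠ k → ∀ P : MvPolynomial (Fin 2) ℂ, P ≠ 0 →
    ∃ z ∈ U, MvPolynomial.eval ![j (τ i z), j (τ k z)] P ≠ 0
  card : S.card = p
  algebraic : ∀ x ∈ S, Algebraic U (fun z => value τ z x)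

/-- the name of a function -/
def nm {p : ℕ} : Fin p × Fin 5 → Name p := fun o => match o with
  | (i, 0) => Name.tau i
  | (i, 1) => Name.j i
  | (i, 2) => Name.dj i
  | (i, 3) => Name.ddj i
  | (i, 4) => Name.nome i

/-- the function with a given name -/
def mn {p : ℕ} : Name p → Fin p × Fin 5 := fun o => match o with
  | Name.tau i => (i, 0)
  | Name.j i => (i, 1)
  | Name.dj i => (i, 2)
  | Name.ddj i => (i, 3)
  | Name.nome i => (i, 4)

/-- the names and the numbers -/
def eqv (p : ℕ) : Fin p × Fin 5 ≃ Name p where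
  toFun := nm
  invFun := mn
  left_inv := by
    rintro ⟨i, m⟩
    fin_cases m <;> rfl
  right_inv := by
    rintro (i | i | i | i | i) <;> rfl


noncomputable instance (p : ℕ) : Fintype (Name p) := Fintype.ofEquiv _ (eqv p)


/-- the polynomial `a_g X ^ g + … + a_0` -/
noncomputable def poly {g : ℕ} (a : Fin (g + 1) → ℤ) : ℂ[X] := ∑ i, C (a i : ℂ) * X ^ (i : ℕ)

/-- the roots of the polynomial in the set `V` -/
noncomputable def rootsIn (V : Set ℂ) {g : ℕ} (a : Fin (g + 1) → ℤ) : Finset ℂ :=
  (poly a).roots.toFinset.filter fun z => z ∈ V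

/-- Every polynomial `P` of degree at most `k` in each of the numbers `x q`, with coefficients `∑ ξ b * c b`, `b < k`,
where the `c b` are rational integers of absolute value at most `T ^ k`, satisfies `|P (x)| ≥ T ^ (-B) |p|` for each of
its coefficients `p`. -/
def Measure {Q : Type} [Fintype Q] [DecidableEq Q] (ξ : ℕ → ℂ) (k : ℕ) (B T : ℝ) (x : Q → ℂ) : Prop :=
  ∀ c : (Q → Fin (k + 1)) → Fin k → ℤ, (∀ l b, |(c l b : ℝ)| ≤ T ^ k) → ∀ l₀,
    T ^ (-B) * ‖∑ b : Fin k, ξ b * (c l₀ b : ℂ)‖ ≤
      ‖∑ l, (∑ b : Fin k, ξ b * (c l b : ℂ)) * ∏ q, x q ^ (l q : ℕ)‖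

/-- the `a` with `|a_i| ≤ T` -/
noncomputable def box (g T : ℕ) : Finset (Fin (g + 1) → ℤ) := Fintype.piFinset fun _ => Finset.Icc (-(T : ℤ)) T

/-- the points whose distance to the complement of `V` is at least `1 / (k + 1)` -/
def region (V : Set ℂ) (k : ℕ) : Set ℂ := {z | Metric.ball z (1 / ((k : ℝ) + 1)) ⊆ V}

/-- the values of the functions with names outside `S`, at all roots of `a` in the set `K` -/
noncomputable def numbers {g p : ℕ} (K : Set ℂ) (τ : Fin p → ℂ → ℂ) (S : Finset (Name p))
    (a : Fin (g + 1) → ℤ) (x : {z // z ∈ rootsIn K a} × {x : Name p // x ∉ S}) : ℂ :=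
  value τ x.1 x.2

/-- `a` is of degree `g`, with simple roots, and the numbers at the roots in `region V k` satisfy the lower bounds -/
def GoodM {g p : ℕ} (V : Set ℂ) (τ : Fin p → ℂ → ℂ) (S : Finset (Name p)) (ξ : ℕ → ℂ) (k : ℕ) (B T : ℝ) (a : Fin (g + 1) → ℤ) : Prop :=
  a (Fin.last g) ≠ 0 ∧ (poly a).Separable ∧ Measure ξ k B T (numbers (region V k) τ S a)

/-- `a` is of degree `g`, its roots are simple, of absolute value at most `R`, at distance at least `η` from each other,
and the roots in `V` are at distance at least `η` from the complement of `V` -/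
def Position (V : Set ℂ) (R η : ℝ) {g : ℕ} (a : Fin (g + 1) → ℤ) : Prop :=
  a (Fin.last g) ≠ 0 ∧ (poly a).Separable ∧ ∀ z, (poly a).eval z = 0 → ‖z‖ ≤ R ∧
    (∀ w, (poly a).eval w = 0 → w ≠ z → η ≤ ‖z - w‖) ∧ (z ∈ V → Metric.ball z η ⊆ V)

theorem j_eq {τ : ℂ} (h : 0 < τ.im) : j τ = Pool.Agent.Y776.jf τ := by
  have h1 : Pool.Agent.Y685.LC τ = lattice τ h := by
    rw [Pool.Agent.Y685.LC, UpperHalfPlane.ofComplex_apply_of_im_pos h]
    rfl
  rw [j, dif_pos h, Pool.Agent.Y776.jf, h1]

theorem j_ev {τ : ℂ} (h : 0 < τ.im) : j =ᶠ[nhds τ] Pool.Agent.Y776.jf := by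
  filter_upwards [Pool.Agent.Y776.AxJ.isOpen_H.mem_nhds h] with σ hσ
  exact j_eq hσ

theorem dj_eq {τ : ℂ} (h : 0 < τ.im) : deriv j τ = deriv Pool.Agent.Y776.jf τ := (j_ev h).deriv_eq

theorem dj_ev {τ : ℂ} (h : 0 < τ.im) : deriv j =ᶠ[nhds τ] deriv Pool.Agent.Y776.jf := by
  filter_upwards [Pool.Agent.Y776.AxJ.isOpen_H.mem_nhds h] with σ hσ
  exact dj_eq hσ

theorem ddj_eq {τ : ℂ} (h : 0 < τ.im) : deriv (deriv j) τ = deriv (deriv Pool.Agent.Y776.jf) τ := (dj_ev h).deriv_eq

theorem fmj {U : Set ℂ} {p : ℕ} {τ : Fin p → ℂ → ℂ} {S : Finset (Name p)} (h : Curve U τ S) :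
    Pool.Agent.Y776.AxJ.Fmj U τ (fun i z => 2 * Real.pi * Complex.I * τ i z) where
  op := h.isOpen
  conn := h.isPreconnected
  ne := h.nonempty
  ta := h.analytic
  im := h.im_pos
  nc := by
    intro i c
    obtain ⟨z, hz, hne⟩ := h.linear (Pi.single i 1) (by
      intro h0
      have := congrFun h0 i
      rw [Pi.single_eq_same] at this
      exact one_ne_zero this) c
    refine ⟨z, hz, fun h1 => hne ?_⟩
    rw [← h1, Finset.sum_eq_single i]
    · rw [Pi.single_eq_same, Int.cast_one, one_mul]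
    · intro k _ hk
      rw [Pi.single_eq_of_ne hk, Int.cast_zero, zero_mul]
    · intro hcon
      exact absurd (Finset.mem_univ i) hcon
  ji := by
    intro i k hik P hP
    by_contra hne
    obtain ⟨z, hz, hz0⟩ := h.independent i k hik P hne
    apply hz0
    rw [← hP z hz]
    congr 2
    funext m
    fin_cases m
    · exact j_eq (h.im_pos i z hz)
    · exact j_eq (h.im_pos k z hz)
  wa := fun i z hz => analyticAt_const.mul (h.analytic i z hz)
  wi := by
    intro m c hc
    by_contra hm
    have hpi : (2 * (Real.pi : ℂ) * Complex.I) ≠ 0 := Complex.two_pi_I_ne_zero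
    obtain ⟨z, hz, hne⟩ := h.linear m hm (c / (2 * Real.pi * Complex.I))
    apply hne
    rw [eq_div_iff hpi, ← hc z hz, Finset.sum_mul]
    exact Finset.sum_congr rfl fun i _ => by ring

theorem nm_inj {p : ℕ} : Function.Injective (nm (p := p)) := by
  have h : Function.LeftInverse (mn (p := p)) nm := by
    rintro ⟨i, m⟩
    fin_cases m <;> rfl
  exact h.injective

theorem value_eq {U : Set ℂ} {p : ℕ} {τ : Fin p → ℂ → ℂ} {S : Finset (Name p)} (h : Curve U τ S) {z : ℂ} (hz : z ∈ U)
    (o : Fin p × Fin 5) : value τ z (nm o) = Pool.Agent.Y776.AxJ.yn τ o z := by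
  obtain ⟨i, m⟩ := o
  fin_cases m
  · rfl
  · exact j_eq (h.im_pos i z hz)
  · exact dj_eq (h.im_pos i z hz)
  · exact ddj_eq (h.im_pos i z hz)
  · rfl

theorem card_name (p : ℕ) : Fintype.card (Name p) = 5 * p := by
  rw [← Fintype.card_congr (eqv p), Fintype.card_prod, Fintype.card_fin, Fintype.card_fin, mul_comm]

/-- all other functions are independent -/
theorem loc {U : Set ℂ} {p : ℕ} {τ : Fin p → ℂ → ℂ} {S : Finset (Name p)} (h : Curve U τ S)
    [Fintype {x : Name p // x ∉ S}] :
    ∀ t ∈ U, Pool.Agent.Y124.LocInd (fun (k : {x : Name p // x ∉ S}) => Pool.Agent.Y776.AxJ.yn τ (mn k.1)) t := by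
  classical
  choose! P hP0 hP using h.algebraic
  refine Pool.Agent.Y776.AxJ.loc_all (fmj h) h.pos (fun k => Pool.Agent.Y776.AxJ.yn_an (fmj h) _) ?_
    (G := {2 * Real.pi * Complex.I} ∪ ⋃ x : Name p, ((P x).coeffs : Set ℂ))
    ((Set.countable_singleton _).union (Set.countable_iUnion fun x => Set.Finite.countable
      (Finset.finite_toSet _))) ?_
  · have h1 := Fintype.card_subtype_compl (fun x => x ∈ S)
    rw [Fintype.card_congr (Equiv.refl {x : Name p // x ∉ S})] at h1
    have h2 : Fintype.card {x : Name p // x ∈ S} = p := by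
      rw [Fintype.card_coe, h.card]
    rw [card_name, h2] at h1
    have h3 : Fintype.card {x : Name p // x ∉ S} = 5 * p - p := by
      rw [← h1]
    rw [h3]
    omega
  · intro F hF z hz htr
    have hall : ∀ o : Fin p × Fin 5, Pool.Agent.Y776.AxJ.yn τ o z ∈ Pool.Agent.Y685.clo F
        (insert z (Set.range fun k : {x : Name p // x ∉ S} => Pool.Agent.Y776.AxJ.yn τ (mn k.1) z)) := by
      intro o
      by_cases ho : nm o ∈ S
      · have h1 : Pool.Agent.Y776.Fam.AlgOver F U (fun z => value τ z (nm o)) :=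
          ⟨P (nm o), hP0 _ ho, fun c hc => hF (Or.inr (Set.mem_iUnion.2 ⟨nm o, hc⟩)), hP _ ho⟩
        have h2 := h1.mem le_rfl hz htr
        simp only [value_eq h hz] at h2
        exact Pool.Agent.Y685.clo_le (fun s hs => by
          rw [Set.mem_singleton_iff.1 hs]
          exact Pool.Agent.Y685.subset_clo (Set.mem_insert _ _)) h2
      · refine Pool.Agent.Y685.subset_clo (Set.mem_insert_of_mem _ ⟨⟨nm o, ho⟩, ?_⟩)
        have h4 : mn (nm o) = o := (eqv p).left_inv o
        change Pool.Agent.Y776.AxJ.yn τ (mn (nm o)) z = _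
        rw [h4]
    rintro (⟨i, m⟩ | i | i)
    · fin_cases m
      · exact hall (i, 0)
      · exact hall (i, 1)
      · exact hall (i, 2)
      · exact hall (i, 3)
    · exact mul_mem (Pool.Agent.Y685.base_clo (hF (Or.inl rfl))) (hall (i, 0))
    · exact hall (i, 4)

/-- **Theorem.** Let `g ≥ 1`, `τ_1, …, τ_p` a curve in `ℍ^p` and `S` the set of the names of `p` of the functions which
are algebraic.
(1) For every `k ≥ 1` there are `B` and `T₀` such that for `T ≥ T₀` and all `ξ` (which may depend on `T`) the proportion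
of the polynomials with `|a_i| ≤ T` which are not `GoodM` is at most `1 / k`.
(2) For fixed `k ≥ 1`, `R`, `η > 0` and `ε > 0` there are `B`, `C` such that for all `ξ` the lower bounds
`Measure ξ k B T` for the numbers at the roots in `V` hold for all but `C T ^ (g + ε)` of the polynomials with
`|a_i| ≤ T` whose roots are in the compact position `Position V R η` (there are about `(2 T) ^ (g + 1)` polynomials).
 -/
theorem result (g p : ℕ) (hg : 0 < g) (V : Set ℂ) (τ : Fin p → ℂ → ℂ) (S : Finset (Name p)) (hC : Curve V τ S) :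
    (∀ k : ℕ, 1 ≤ k → ∃ (B : ℝ) (T₀ : ℕ), ∀ T : ℕ, T₀ ≤ T → ∀ ξ : ℕ → ℂ,
      (k : ℝ) * ((box g T).filter fun a => ¬ GoodM V τ S ξ k B T a).card ≤ (box g T).card) ∧
    (∀ (k : ℕ) (R η ε : ℝ), 1 ≤ k → 0 < η → 0 < ε → ∃ B C : ℝ, ∀ T : ℕ, 1 ≤ T → ∀ ξ : ℕ → ℂ,
      (((box g T).filter fun a => Position V R η a ∧ ¬ Measure ξ k B T (numbers V τ S a)).card : ℝ) ≤
        C * (T : ℝ) ^ ((g : ℝ) + ε)) := by
  have hpre : IsPreconnected V := hC.isPreconnected
  have hop : IsOpen V := hC.isOpen
  have han0 : ∀ w : {x : Name p // x ∉ S}, AnalyticOnNhd ℂ (Pool.Agent.Y776.AxJ.yn τ (mn w.1)) V := fun w =>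
    Pool.Agent.Y776.AxJ.yn_an (fmj hC) _
  have hval : ∀ (w : {x : Name p // x ∉ S}) z, z ∈ V → Pool.Agent.Y776.AxJ.yn τ (mn w.1) z = value τ z w.1 := by
    intro w z hz
    rw [← value_eq hC hz]
    have h4 : nm (mn w.1) = w.1 := (eqv _).right_inv _
    rw [h4]
  have han : ∀ w : {x : Name p // x ∉ S}, AnalyticOnNhd ℂ (fun z => value τ z w.1) V := by
    intro w z hz
    refine (han0 w z hz).congr ?_
    filter_upwards [hop.mem_nhds hz] with y hy
    exact hval w y hy
  have hind0 := Pool.Agent.X255.RH.indep_of_loc hop hC.nonempty (loc hC)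
  have hind : Pool.Agent.X255.RH.Indep V (fun (w : {x : Name p // x ∉ S}) z => value τ z w.1) := by
    intro P hP
    refine hind0 P fun z hz => ?_
    rw [← hP z hz]
    unfold Pool.Agent.Y890.SP.evF
    congr 1
    funext w
    exact hval w z hz

  refine ⟨fun k hk => ?_, fun k R η ε hk hη hε => ?_⟩
  · exact Pool.Agent.X255.RH.mea_all (g := g) hg hpre hop (Pool.Agent.X255.RH.tame_deep V k) han hind k hk
  · exact Pool.Agent.X255.RH.mea_eps (g := g) hg hpre hop han hind V k R η ε hη hε

end Pool.Agent.Results.MP_5e64e7_nt.LowerBoundsForJets
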